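import Mathlib
import Pool.Agent.Helper259.RatMaps
import Pool.Agent.Helper259.Orbit3Ht

set_option autoImplicit false

/-! # Adding one coordinate to a rational map: heights and function fields -/

namespace Pool.Agent.Y209.HT

open Pool.Agent.Helper259.AbsHt Pool.Agent.Helper259.RatDef Pool.Agent.Helper259.RatMaps
  Pool.Agent.Helper259.Uniform Pool.Agent.Helper259.Orbit3Ht Height

/-! ### the shift of function fields -/

lemma rename_inj (m : ℕ) : Function.Injective
    ((MvPolynomial.rename (R := Qbar) (Fin.succ : Fin m → Fin (m + 1))).toRingHom) :=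
  MvPolynomial.rename_injective _ (Fin.succ_injective m)

/-- the inclusion of function fields induced by `X i ↦ X (i+1)` -/
noncomputable def shift (m : ℕ) : FF m →+* FF (m + 1) :=
  IsFractionRing.map (rename_inj m)

lemma shift_alg {m : ℕ} (p : MvPolynomial (Fin m) Qbar) :
    shift m (algebraMap _ (FF m) p) = algebraMap _ (FF (m + 1)) (MvPolynomial.rename Fin.succ p) := by
  rw [shift, IsFractionRing.map]
  exact IsLocalization.map_eq _ _

lemma evalsTo_shift {m : ℕ} {r : FF m} {a : Fin m → Qbar} {c : Qbar} (v : Qbar)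
    (h : EvalsTo r a c) : EvalsTo (shift m r) (Fin.cons v a) c := by
  obtain ⟨p, q, hq, h1, h2⟩ := h
  have hc : (Fin.cons v a : Fin (m + 1) → Qbar) ∘ Fin.succ = a := by
    funext i; simp
  refine ⟨MvPolynomial.rename Fin.succ p, MvPolynomial.rename Fin.succ q, ?_, ?_, ?_⟩
  · rw [MvPolynomial.eval_rename, hc]; exact hq
  · rw [← shift_alg, ← shift_alg, ← map_mul, h1]
  · rw [MvPolynomial.eval_rename, MvPolynomial.eval_rename, hc]; exact h2

/-! ### heights of rational numbers -/

lemma num_den_of_abs {q : ℚ} {a b : ℕ} (hb : 0 < b) (hab : Nat.Coprime a b)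
    (h : |q| = (a : ℚ) / b) : q.num.natAbs = a ∧ q.den = b := by
  have h1 : |q| = ((a : ℤ) : ℚ) / ((b : ℤ) : ℚ) := by rw [h]; simp
  have hb' : (0 : ℤ) < (b : ℤ) := by exact_mod_cast hb
  have hco : ((a : ℤ)).natAbs.Coprime ((b : ℤ)).natAbs := by simpa using hab
  have e1 := Rat.num_div_eq_of_coprime hb' hco
  have e2 := Rat.den_div_eq_of_coprime hb' hco
  rw [← h1] at e1 e2
  have e3 : (|q|).num = |q.num| := by
    rw [Rat.abs_def]
    have : (Rat.divInt (q.num.natAbs : ℤ) (q.den : ℤ)) = ((q.num.natAbs : ℤ) : ℚ) / ((q.den : ℤ) : ℚ) := by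
      rw [Rat.divInt_eq_div]
    rw [this]
    have := Rat.num_div_eq_of_coprime (a := (q.num.natAbs : ℤ)) (b := (q.den : ℤ))
      (by exact_mod_cast q.den_pos)
      (by rw [Int.natAbs_natCast, Int.natAbs_natCast]; exact q.reduced)
    rw [this]
    simp
  have e4 : (|q|).den = q.den := by
    rw [Rat.abs_def]
    have : (Rat.divInt (q.num.natAbs : ℤ) (q.den : ℤ)) = ((q.num.natAbs : ℤ) : ℚ) / ((q.den : ℤ) : ℚ) := by
      rw [Rat.divInt_eq_div]
    rw [this]
    have := Rat.den_div_eq_of_coprime (a := (q.num.natAbs : ℤ)) (b := (q.den : ℤ))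
      (by exact_mod_cast q.den_pos)
      (by rw [Int.natAbs_natCast, Int.natAbs_natCast]; exact q.reduced)
    exact_mod_cast this
  constructor
  · rw [e3] at e1
    have : (|q.num| : ℤ) = (a : ℤ) := e1
    rw [Int.abs_eq_natAbs] at this
    exact_mod_cast this
  · rw [e4] at e2
    exact_mod_cast e2

lemma h1_bounds {q : ℚ} {a b : ℕ} (ha : 0 < a) (hb : 0 < b) (hab : Nat.Coprime a b)
    (h : |q| = (a : ℚ) / b) :
    (Real.log a + Real.log b) / 2 ≤ h1 (q : Qbar) ∧ h1 (q : Qbar) ≤ Real.log a + Real.log b := by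
  obtain ⟨h2, h3⟩ := num_den_of_abs hb hab h
  have h4 : h1 (q : Qbar) = Real.log ((max a b : ℕ) : ℝ) := by
    rw [h1_rat, ← logHeight₁_eq_logHeight, Rat.logHeight₁_eq_log_max, h2, h3]
  have ha' : (1 : ℝ) ≤ a := by exact_mod_cast ha
  have hb' : (1 : ℝ) ≤ b := by exact_mod_cast hb
  have la : 0 ≤ Real.log a := Real.log_nonneg ha'
  have lb : 0 ≤ Real.log b := Real.log_nonneg hb'
  have l1 : Real.log a ≤ Real.log ((max a b : ℕ) : ℝ) :=
    Real.log_le_log (by linarith) (by exact_mod_cast le_max_left a b)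
  have l2 : Real.log b ≤ Real.log ((max a b : ℕ) : ℝ) :=
    Real.log_le_log (by linarith) (by exact_mod_cast le_max_right a b)
  rw [h4]
  constructor
  · linarith
  · rcases le_total a b with hle | hle
    · rw [max_eq_right hle]; linarith
    · rw [max_eq_left hle]; linarith

/-! ### heights of points -/

lemma h1_le_aff {m : ℕ} (a : Fin m → Qbar) (i : Fin m) : h1 (a i) ≤ absLogHeight (aff a) := by
  have := absLogHeight_comp_le (![0, i.succ] : Fin 2 → Fin (m + 1)) (aff a)
  have e : (aff a) ∘ (![0, i.succ] : Fin 2 → Fin (m + 1)) = ![1, a i] := by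
    funext j
    fin_cases j <;> simp [aff]
  rwa [e] at this

lemma aff_le_sum {m : ℕ} (a : Fin m → Qbar) :
    absLogHeight (aff a) ≤ h1 1 + ∑ i, h1 (a i) := by
  refine (absLogHeight_le_sum _).trans ?_
  rw [Fin.sum_univ_succ]
  have : ∀ i : Fin m, absLogHeight ![1, aff a i.succ] = h1 (a i) := by
    intro i
    rw [h1]; simp [aff]
  simp only [this]
  have h0 : absLogHeight ![1, aff a 0] = h1 1 := by rw [h1]; simp [aff]
  rw [h0]

end Pool.Agent.Y209.HT
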