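import Mathlib
import Pool.Agent.Y209.HT.Core

set_option autoImplicit false

/-! # The inductive step: one more coordinate `v ↦ v ^ 4 * G` -/

namespace Pool.Agent.Y209.HT

open Pool.Agent.Helper259.AbsHt Pool.Agent.Helper259.RatDef Pool.Agent.Helper259.RatMaps
  Pool.Agent.Helper259.Uniform Pool.Agent.Helper259.Orbit3Ht Height

/-- growth of a linear recursion -/
def GRO : Prop := ∀ (e : ℕ) (L M : ℕ → ℝ), (∀ n, L (n + 1) = 4 * L n + M n) →
  (∀ n, 0 ≤ M n) → (∀ n, 0 ≤ L n) → ∀ (c C : ℝ), 0 < c → 0 < C → ∀ n₀ : ℕ,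
  (∀ n ≥ n₀, c * ((4 : ℝ) ^ n * (n : ℝ) ^ e) ≤ M n ∧ M n ≤ C * ((4 : ℝ) ^ n * (n : ℝ) ^ e)) →
  ∃ c' C' : ℝ, 0 < c' ∧ 0 < C' ∧ ∃ n₁ : ℕ, ∀ n ≥ n₁,
    c' * ((4 : ℝ) ^ n * (n : ℝ) ^ (e + 1)) ≤ L n ∧ L n ≤ C' * ((4 : ℝ) ^ n * (n : ℝ) ^ (e + 1))

/-- the data of the induction -/
structure IsPack (m e : ℕ) (r : Fin m → FF m) (G : FF m) (u z : Fin m → ℕ → Qbar)
    (a b : ℕ → ℕ) (g : ℕ → ℚ) : Prop where
  rat : ∀ n i, ∃ q : ℚ, u i n = (q : Qbar)
  step : ∀ n i, EvalsTo (r i) (fun j => u j n) (u i (n + 1))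
  gstep : ∀ n, EvalsTo G (fun j => u j n) (g n : Qbar)
  apos : ∀ n, 0 < a n
  bpos : ∀ n, 0 < b n
  cop : ∀ i j, Nat.Coprime (a i) (b j)
  abs : ∀ n, |g n| = (a n : ℚ) / b n
  sep : ∀ i K, ∀ᶠ n in Filter.atTop,
    K * (1 + ∑ j, if i < j then h1 (z j n) else 0) < h1 (z i n)
  alg : ∀ (U : Ultrafilter ℕ) i,
    IsAlgebraic (Algebra.adjoin Qbar (Set.range fun i => toK U (u i))) (toK U (z i))
  gro : ∃ c C : ℝ, 0 < c ∧ 0 < C ∧ ∃ n₀ : ℕ, ∀ n ≥ n₀,
    c * ((4 : ℝ) ^ n * (n : ℝ) ^ e) ≤ Real.log (a n) + Real.log (b n) ∧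
    Real.log (a n) + Real.log (b n) ≤ C * ((4 : ℝ) ^ n * (n : ℝ) ^ e) ∧
    c * ((4 : ℝ) ^ n * (n : ℝ) ^ e) ≤ absLogHeight (aff fun i => u i n) ∧
    absLogHeight (aff fun i => u i n) ≤ C * ((4 : ℝ) ^ n * (n : ℝ) ^ e) ∧
    ∀ i, h1 (z i n) ≤ C * ((4 : ℝ) ^ n * (n : ℝ) ^ e)

section Tower

variable (g : ℕ → ℚ) (a b : ℕ → ℕ)

/-- the new coordinate along the orbit -/
def vv : ℕ → ℚ
  | 0 => 1
  | (n + 1) => vv n ^ 4 * g n

/-- numerators -/
def nu : ℕ → ℕ
  | 0 => 1
  | (n + 1) => nu n ^ 4 * a n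

lemma nu_pos (ha : ∀ n, 0 < a n) (n : ℕ) : 0 < nu a n := by
  induction n with
  | zero => simp [nu]
  | succ n ih => rw [nu]; exact Nat.mul_pos (pow_pos ih 4) (ha n)

lemma nu_cop (h : ∀ i j, Nat.Coprime (a i) (b j)) (i j : ℕ) :
    Nat.Coprime (nu a i) (nu b j) := by
  have h1 : ∀ i j, Nat.Coprime (nu a i) (b j) := by
    intro i j
    induction i with
    | zero => simp [nu]
    | succ i ih => rw [nu]; exact Nat.Coprime.mul_left (ih.pow_left 4) (h i j)
  induction j with
  | zero => simp [nu]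
  | succ j ih => rw [nu]; exact Nat.Coprime.mul_right (ih.pow_right 4) (h1 i j)

lemma vv_abs (h : ∀ n, |g n| = (a n : ℚ) / b n) (n : ℕ) :
    |vv g n| = (nu a n : ℚ) / nu b n := by
  induction n with
  | zero => simp [nu, vv]
  | succ n ih =>
    rw [vv, abs_mul, abs_pow, ih, h, nu, nu]
    push_cast
    rw [div_pow, div_mul_div_comm]

lemma log_nu (ha : ∀ n, 0 < a n) (n : ℕ) :
    Real.log (nu a (n + 1)) = 4 * Real.log (nu a n) + Real.log (a n) := by
  have h1 : (nu a n : ℝ) ≠ 0 := by exact_mod_cast (nu_pos a ha n).ne'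
  have h2 : (a n : ℝ) ≠ 0 := by exact_mod_cast (ha n).ne'
  rw [nu]
  push_cast
  rw [Real.log_mul (pow_ne_zero 4 h1) h2, Real.log_pow]
  norm_num

end Tower

lemma alg_mono {U : Ultrafilter ℕ} {S T : Subalgebra Qbar (Kst U)} (h : S ≤ T) {x : Kst U}
    (hx : IsAlgebraic S x) : IsAlgebraic T x := by
  let _ : Algebra S T := (Subalgebra.inclusion h).toRingHom.toAlgebra
  have _ : IsScalarTower S T (Kst U) := IsScalarTower.of_algebraMap_eq fun _ => rfl
  exact hx.extendScalars (Subalgebra.inclusion_injective h)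

theorem step_pack (hGRO : GRO) {m e : ℕ} {r : Fin m → FF m} {G : FF m} {u z : Fin m → ℕ → Qbar}
    {a b : ℕ → ℕ} {g : ℕ → ℚ} (P : IsPack m e r G u z a b g) :
    IsPack (m + 1) (e + 1)
      (Fin.cons ((algebraMap (MvPolynomial (Fin (m + 1)) Qbar) (FF (m + 1))
        (MvPolynomial.X 0)) ^ 4 * shift m G) fun i => shift m (r i))
      (algebraMap (MvPolynomial (Fin (m + 1)) Qbar) (FF (m + 1)) (MvPolynomial.X 0))
      (Fin.cons (fun n => (vv g n : Qbar)) u) (Fin.cons (fun n => (vv g n : Qbar)) z)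
      (nu a) (nu b) (vv g) := by
  have hpt : ∀ n, (fun j => (Fin.cons (fun n => (vv g n : Qbar)) u : Fin (m + 1) → ℕ → Qbar) j n) =
      (Fin.cons (vv g n : Qbar) (fun j => u j n) : Fin (m + 1) → Qbar) := by
    intro n
    funext j
    refine Fin.cases ?_ (fun j => ?_) j <;> simp
  have hX : ∀ n, EvalsTo (algebraMap (MvPolynomial (Fin (m + 1)) Qbar) (FF (m + 1))
      (MvPolynomial.X 0)) (Fin.cons (vv g n : Qbar) (fun j => u j n) : Fin (m + 1) → Qbar)
      (vv g n : Qbar) := by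
    intro n
    have := EvalsTo.var (m := m + 1) 0 (Fin.cons (vv g n : Qbar) (fun j => u j n))
    rwa [Fin.cons_zero] at this
  have hap := nu_pos a P.apos
  have hbp := nu_pos b P.bpos
  have hcop := nu_cop a b P.cop
  have habs := vv_abs g a b P.abs
  obtain ⟨c, C, hc, hC, n₀, hgro⟩ := P.gro
  have hM0 : ∀ n, 0 ≤ Real.log (a n) + Real.log (b n) := fun n =>
    add_nonneg (Real.log_nonneg (by exact_mod_cast P.apos n))
      (Real.log_nonneg (by exact_mod_cast P.bpos n))
  have hL0 : ∀ n, 0 ≤ Real.log (nu a n) + Real.log (nu b n) := fun n =>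
    add_nonneg (Real.log_nonneg (by exact_mod_cast hap n))
      (Real.log_nonneg (by exact_mod_cast hbp n))
  obtain ⟨c', C', hc', hC', n₁, hgro'⟩ := hGRO e
    (fun n => Real.log (nu a n) + Real.log (nu b n)) (fun n => Real.log (a n) + Real.log (b n))
    (fun n => by rw [log_nu a P.apos, log_nu b P.bpos]; ring) hM0 hL0 c C hc hC n₀
    (fun n hn => ⟨(hgro n hn).1, (hgro n hn).2.1⟩)
  have hv : ∀ n, (Real.log (nu a n) + Real.log (nu b n)) / 2 ≤ h1 (vv g n : Qbar) ∧
      h1 (vv g n : Qbar) ≤ Real.log (nu a n) + Real.log (nu b n) := fun n =>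
    h1_bounds (hap n) (hbp n) (hcop n n) (habs n)
  -- growth
  have hgrow : ∀ n : ℕ, 1 ≤ n → 1 ≤ (4 : ℝ) ^ n * (n : ℝ) ^ e ∧
      (4 : ℝ) ^ n * (n : ℝ) ^ e ≤ (4 : ℝ) ^ n * (n : ℝ) ^ (e + 1) ∧
      (4 : ℝ) ^ n * (n : ℝ) ^ (e + 1) = n * ((4 : ℝ) ^ n * (n : ℝ) ^ e) := by
    intro n hn
    have hn1 : (1 : ℝ) ≤ n := by exact_mod_cast hn
    refine ⟨one_le_mul_of_one_le_of_one_le (one_le_pow₀ (by norm_num)) (one_le_pow₀ hn1), ?_, ?_⟩
    · exact mul_le_mul_of_nonneg_left (pow_le_pow_right₀ hn1 (by omega)) (by positivity)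
    · ring
  refine ⟨?_, ?_, ?_, hap, hbp, hcop, habs, ?_, ?_, ?_⟩
  · intro n i
    refine Fin.cases ?_ (fun i => ?_) i
    · exact ⟨vv g n, by simp⟩
    · simpa using P.rat n i
  · intro n i
    rw [hpt]
    refine Fin.cases ?_ (fun i => ?_) i
    · have h := (((hX n).pow 4).mul (evalsTo_shift (vv g n : Qbar) (P.gstep n)))
      simp only [Fin.cons_zero]
      have e1 : ((vv g (n + 1) : ℚ) : Qbar) = (vv g n : Qbar) ^ 4 * (g n : Qbar) := by
        rw [vv]; push_cast; rfl
      rw [e1]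
      exact h
    · simp only [Fin.cons_succ]
      exact evalsTo_shift _ (P.step n i)
  · intro n
    rw [hpt]
    exact hX n
  · intro i K
    refine Fin.cases ?_ (fun i => ?_) i
    · have hlim : ∀ᶠ n : ℕ in Filter.atTop, 2 * (|K| * (1 + m * C)) / c' < n :=
        (tendsto_natCast_atTop_atTop (R := ℝ)).eventually_gt_atTop _
      filter_upwards [hlim, Filter.eventually_ge_atTop (max (max n₀ n₁) 1)] with n h1n h2n
      have g0 : n₀ ≤ n := ((le_max_left _ _).trans (le_max_left _ _)).trans h2n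
      have g1 : n₁ ≤ n := ((le_max_right _ _).trans (le_max_left _ _)).trans h2n
      have g2 : 1 ≤ n := (le_max_right _ _).trans h2n
      obtain ⟨q1, q2, q3⟩ := hgrow n g2
      set M := (4 : ℝ) ^ n * (n : ℝ) ^ e with hM
      have hsum : (∑ j : Fin (m + 1), if (0 : Fin (m + 1)) < j then
          h1 ((Fin.cons (fun n => (vv g n : Qbar)) z : Fin (m + 1) → ℕ → Qbar) j n) else 0) ≤
          m * C * M := by
        rw [Fin.sum_univ_succ]
        simp only [lt_self_iff_false, if_false, zero_add, Fin.succ_pos, if_true, Fin.cons_succ]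
        calc ∑ j : Fin m, h1 (z j n) ≤ ∑ _j : Fin m, C * M :=
              Finset.sum_le_sum fun j _ => (hgro n g0).2.2.2.2 j
          _ = m * C * M := by rw [Finset.sum_const, Finset.card_univ, Fintype.card_fin,
                nsmul_eq_mul]; ring
      set S := (∑ j : Fin (m + 1), if (0 : Fin (m + 1)) < j then
          h1 ((Fin.cons (fun n => (vv g n : Qbar)) z : Fin (m + 1) → ℕ → Qbar) j n) else 0) with hS
      have hS0 : 0 ≤ S := Finset.sum_nonneg fun j _ => by
        split_ifs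
        · exact h1_nonneg _
        · exact le_rfl
      have e1 : K * (1 + S) ≤ |K| * (1 + S) :=
        mul_le_mul_of_nonneg_right (le_abs_self K) (by linarith)
      have e2 : |K| * (1 + S) ≤ |K| * ((1 + m * C) * M) := by
        apply mul_le_mul_of_nonneg_left _ (abs_nonneg K)
        have : (0 : ℝ) ≤ m * C := by positivity
        nlinarith
      have e3 := (hv n).1
      have e4 := (hgro' n g1).1
      rw [q3] at e4
      have e5 : 2 * (|K| * (1 + m * C)) < c' * n := by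
        rw [div_lt_iff₀ hc'] at h1n; linarith
      have hM1 : 0 < M := by linarith
      have e6 : 2 * (|K| * (1 + m * C)) * M < c' * n * M := mul_lt_mul_of_pos_right e5 hM1
      simp only [Fin.cons_zero]
      have e7 : |K| * ((1 + m * C) * M) = (2 * (|K| * (1 + m * C)) * M) / 2 := by ring
      have e8 : c' * (n * M) = c' * n * M := by ring
      linarith
    · filter_upwards [P.sep i K] with n hn
      have : (∑ j : Fin (m + 1), if i.succ < j then
          h1 ((Fin.cons (fun n => (vv g n : Qbar)) z : Fin (m + 1) → ℕ → Qbar) j n) else 0) =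
          ∑ j : Fin m, if i < j then h1 (z j n) else 0 := by
        rw [Fin.sum_univ_succ]
        simp
      rw [this]
      simpa using hn
  · intro U i
    have hmono : Algebra.adjoin Qbar (Set.range fun i => toK U (u i)) ≤
        Algebra.adjoin Qbar (Set.range fun i => toK U
          ((Fin.cons (fun n => (vv g n : Qbar)) u : Fin (m + 1) → ℕ → Qbar) i)) := by
      apply Algebra.adjoin_mono
      rintro _ ⟨i, rfl⟩
      exact ⟨i.succ, by simp⟩
    refine Fin.cases ?_ (fun i => ?_) i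
    · have hmem : toK U (fun n => (vv g n : Qbar)) ∈
          Algebra.adjoin Qbar (Set.range fun i => toK U
          ((Fin.cons (fun n => (vv g n : Qbar)) u : Fin (m + 1) → ℕ → Qbar) i)) :=
        Algebra.subset_adjoin ⟨0, by simp⟩
      have := isAlgebraic_algebraMap (R := Algebra.adjoin Qbar (Set.range fun i => toK U
          ((Fin.cons (fun n => (vv g n : Qbar)) u : Fin (m + 1) → ℕ → Qbar) i))) (A := Kst U)
        (⟨_, hmem⟩)
      simp only [Fin.cons_zero]
      exact this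
    · simp only [Fin.cons_succ]
      exact alg_mono hmono (P.alg U i)
  · refine ⟨c' / 2, C' + (h1 1 + C' + m * C) + C, by positivity, by
      have := h1_nonneg 1
      positivity, max (max n₀ n₁) 1, fun n hn => ?_⟩
    have g0 : n₀ ≤ n := ((le_max_left _ _).trans (le_max_left _ _)).trans hn
    have g1 : n₁ ≤ n := ((le_max_right _ _).trans (le_max_left _ _)).trans hn
    have g2 : 1 ≤ n := (le_max_right _ _).trans hn
    obtain ⟨q1, q2, q3⟩ := hgrow n g2
    obtain ⟨p1, p2⟩ := hgro' n g1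
    obtain ⟨o1, o2, o3, o4, o5⟩ := hgro n g0
    obtain ⟨v1, v2⟩ := hv n
    set M := (4 : ℝ) ^ n * (n : ℝ) ^ e with hM
    set M' := (4 : ℝ) ^ n * (n : ℝ) ^ (e + 1) with hM'
    have hM1 : 1 ≤ M' := q1.trans q2
    have h11 := h1_nonneg 1
    have hmC : (0 : ℝ) ≤ m * C := by positivity
    have up : ∀ x : ℝ, x ≤ C * M → x ≤ C * M' := fun x hx =>
      hx.trans (mul_le_mul_of_nonneg_left q2 hC.le)
    have hCM' : 0 ≤ C * M' := by positivity
    have hC'M' : 0 ≤ C' * M' := by positivity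
    have hB : (C' + (h1 1 + C' + m * C) + C) * M' =
        C' * M' + (h1 1 * M' + C' * M' + m * C * M') + C * M' := by ring
    have h11M : 0 ≤ h1 1 * M' := by positivity
    have hmCM : 0 ≤ m * C * M' := by positivity
    rw [hpt]
    refine ⟨?_, ?_, ?_, ?_, ?_⟩
    · have : c' / 2 * M' ≤ c' * M' := by
        apply mul_le_mul_of_nonneg_right _ (by linarith)
        linarith
      linarith
    · rw [hB]; linarith
    · have := h1_le_aff (Fin.cons (vv g n : Qbar) (fun j => u j n) : Fin (m + 1) → Qbar) 0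
      rw [Fin.cons_zero] at this
      have e1 : c' / 2 * M' = (c' * M') / 2 := by ring
      linarith
    · refine (aff_le_sum _).trans ?_
      rw [Fin.sum_univ_succ]
      simp only [Fin.cons_zero, Fin.cons_succ]
      have s1 : ∑ i : Fin m, h1 (u i n) ≤ m * C * M' := by
        calc ∑ i : Fin m, h1 (u i n) ≤ ∑ _i : Fin m, C * M' :=
              Finset.sum_le_sum fun i _ => up _ ((h1_le_aff (fun j => u j n) i).trans o4)
          _ = m * C * M' := by rw [Finset.sum_const, Finset.card_univ, Fintype.card_fin,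
                nsmul_eq_mul]; ring
      have s2 : h1 1 ≤ h1 1 * M' := le_mul_of_one_le_right h11 hM1
      rw [hB]
      linarith
    · intro i
      refine Fin.cases ?_ (fun i => ?_) i
      · simp only [Fin.cons_zero]
        rw [hB]; linarith
      · simp only [Fin.cons_succ]
        have := up _ (o5 i)
        rw [hB]; linarith

end Pool.Agent.Y209.HT
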