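import Mathlib
import Pool.Agent.Y209.HT.Step

set_option autoImplicit false

/-! # The base of the induction: the map of projective 3-space -/

namespace Pool.Agent.Y209.HT

open Pool.Agent.Helper259.AbsHt Pool.Agent.Helper259.RatDef Pool.Agent.Helper259.RatMaps
  Pool.Agent.Helper259.Uniform Pool.Agent.Helper259.Orbit3Ht Pool.Agent.Helper259.Orbit3
  Pool.Agent.Helper259.Pts Height

/-- arithmetic: numerators are coprime to denominators -/
def COP : Prop := ∀ m k : ℤ, m ≠ 0 → k ≠ 0 → ¬ (3 : ℤ) ∣ k →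
  Nat.Coprime (px m).num.natAbs (px k).den

/-- the multiple `A - C` -/
def DD (n : ℕ) : ℤ := (tri n).1 - (tri n).2.2

lemma DD_pos (n : ℕ) : 0 < DD n := by
  obtain ⟨h1, h2, h3⟩ := tri_pos n
  rw [DD]; omega

lemma DD_formula (n : ℕ) : 2 * DD n = 2 ^ n * ((n : ℤ) ^ 2 + 3 * n + 4) := by
  obtain ⟨h1, h2, h3⟩ := tri_formula n
  rw [DD, mul_sub, h3, h1]; ring

lemma DD_three (n : ℕ) : ¬ (3 : ℤ) ∣ DD n := by
  intro h
  have h1 : (3 : ℤ) ∣ 2 ^ n * ((n : ℤ) ^ 2 + 3 * n + 4) := by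
    rw [← DD_formula]; exact h.mul_left 2
  have hp : Prime (3 : ℤ) := Int.prime_three
  rcases hp.dvd_or_dvd h1 with h2 | h2
  · have := hp.dvd_of_dvd_pow h2
    norm_num at this
  · have h6 : ∀ x : ZMod 3, x ^ 2 + 3 * x + 4 ≠ 0 := by decide
    have h7 := (ZMod.intCast_zmod_eq_zero_iff_dvd ((n : ℤ) ^ 2 + 3 * n + 4) 3).2
      (by exact_mod_cast h2)
    push_cast at h7
    exact h6 _ h7

lemma DD_real (n : ℕ) : ((DD n : ℤ) : ℝ) = 2 ^ n * ((n : ℝ) ^ 2 + 3 * n + 4) / 2 := by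
  have : (2 : ℝ) * ((DD n : ℤ) : ℝ) = 2 ^ n * ((n : ℝ) ^ 2 + 3 * n + 4) := by
    exact_mod_cast DD_formula n
  linarith

/-- the function `x(A - C) ^ 3` on the three-dimensional base -/
noncomputable def GG : FF 3 :=
  let u1 : FF 3 := algebraMap (MvPolynomial (Fin 3) Qbar) (FF 3) (MvPolynomial.X 0)
  let u2 : FF 3 := algebraMap (MvPolynomial (Fin 3) Qbar) (FF 3) (MvPolynomial.X 1)
  let w : FF 3 := algebraMap (MvPolynomial (Fin 3) Qbar) (FF 3) (MvPolynomial.X 2)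
  (addX (kk u1 u2 w) u1 (1 + w * tau u1 u2 w) 1 (-1)) ^ 3 * (3 / (kk u1 u2 w - 1))

lemma GG_val (n : ℕ) : EQ GG (orb n) (px (DD n) ^ 3) := by
  obtain ⟨hAB, hBC, hC⟩ := tri_pos n
  rw [DD, orb]
  generalize (tri n).1 = A at *
  generalize (tri n).2.1 = B at *
  generalize (tri n).2.2 = C at *
  have hA0 : A ≠ 0 := by omega
  have hB0 : B ≠ 0 := by omega
  have hC0 : C ≠ 0 := by omega
  set a := pt A B C with ha
  rw [GG]
  set u1 : FF 3 := algebraMap (MvPolynomial (Fin 3) Qbar) (FF 3) (MvPolynomial.X 0) with hu1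
  set u2 : FF 3 := algebraMap (MvPolynomial (Fin 3) Qbar) (FF 3) (MvPolynomial.X 1) with hu2
  set w : FF 3 := algebraMap (MvPolynomial (Fin 3) Qbar) (FF 3) (MvPolynomial.X 2) with hw
  have e1 : EQ u1 a (px A / px C) := EvalsTo.var 0 _
  have e2 : EQ u2 a (px B / px C) := EvalsTo.var 1 _
  have e3 : EQ w a ((py A - py C) / (py B - py C)) := EvalsTo.var 2 _
  obtain ⟨t1, t2, t3, t4⟩ := tau_val hA0 hB0 hC0 (by omega : A ≠ B) (by omega : A ≠ C)
    (by omega : B ≠ C) (by omega : B ≠ -C)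
  have xC := px_ne hC0
  have yC := py_ne hC0
  have d1 : py B - py C ≠ 0 := sub_ne_zero.mpr fun h => by
    have := py_inj hB0 hC0 h; omega
  have et : EQ (tau u1 u2 w) a (py B / py C - 1) := by
    have := EQ.tau e1 e2 e3 t3
    rwa [t1] at this
  have ek : EQ (kk u1 u2 w) a (py C ^ 2 / px C ^ 3) := by
    have := EQ.kap e2 et t4
    rwa [t2] at this
  have ev1 : EQ (1 + w * tau u1 u2 w) a (py A / py C) := by
    have := EQ.one.add (e3.mul et)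
    have e : 1 + (py A - py C) / (py B - py C) * (py B / py C - 1) = py A / py C := by
      field_simp; ring
    rwa [e] at this
  obtain ⟨s1, -, s3⟩ := addX_val hA0 (neg_ne_zero.mpr hC0) hC0 (by omega : A ≠ -C)
    (by omega : A ≠ - -C)
  rw [(neg_coord hC0).1, (neg_coord hC0).2, div_self xC, neg_div, div_self yC] at s1
  rw [(neg_coord hC0).1, div_self xC] at s3
  have eX : EQ (addX (kk u1 u2 w) u1 (1 + w * tau u1 u2 w) 1 (-1)) a (px (A - C) / px C) := by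
    have := EQ.addX ek e1 ev1 EQ.one (EQ.one.neg) s3
    rwa [s1, ← sub_eq_add_neg] at this
  have hk1 : py C ^ 2 / px C ^ 3 - 1 = 3 / px C ^ 3 := by
    rw [curve hC0]
    field_simp
    ring
  have hk0 : py C ^ 2 / px C ^ 3 - 1 ≠ 0 := by
    rw [hk1]; exact div_ne_zero (by norm_num) (pow_ne_zero _ xC)
  have := (eX.pow 3).mul (EQ.three.div (ek.sub EQ.one) hk0)
  have e : (px (A - C) / px C) ^ 3 * (3 / (py C ^ 2 / px C ^ 3 - 1)) = px (A - C) ^ 3 := by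
    rw [hk1]
    field_simp
  rwa [e] at this

lemma abs_rat (q : ℚ) : |q| = (q.num.natAbs : ℚ) / (q.den : ℚ) := by
  conv_lhs => rw [← Rat.num_div_den q]
  rw [abs_div, Nat.abs_cast]
  congr 1
  rw [← Int.cast_abs, Int.abs_eq_natAbs]
  simp

theorem base_pack (hCOP : COP) : IsPack 3 4 rr GG uu zz
    (fun n => (px (DD n)).num.natAbs ^ 3) (fun n => (px (DD n)).den ^ 3)
    (fun n => px (DD n) ^ 3) := by
  have hD : ∀ n, DD n ≠ 0 := fun n => (DD_pos n).ne'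
  have hnum : ∀ n, 0 < (px (DD n)).num.natAbs := fun n =>
    Int.natAbs_pos.mpr (Rat.num_ne_zero.mpr (px_ne (hD n)))
  have hden : ∀ n, 0 < (px (DD n)).den := fun n => (px (DD n)).den_pos
  refine ⟨fun n i => ⟨orb n i, rfl⟩, fun n i => orb_step n i, GG_val, fun n => pow_pos (hnum n) 3,
    fun n => pow_pos (hden n) 3, fun i j => ?_, fun n => ?_, zz_sep, alg_z, ?_⟩
  · exact ((hCOP _ _ (hD i) (hD j) (DD_three j)).pow_left 3).pow_right 3
  · rw [abs_pow, abs_rat, div_pow]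
    push_cast
    rfl
  obtain ⟨α, C, hα, hC, hx, -⟩ := facts
  obtain ⟨c₁, c₂, hc₁, hc₂, n₂, has⟩ := asymp
  have h4 : ∀ n : ℕ, ((2 : ℝ) ^ n) ^ 2 = 4 ^ n := fun n => by
    rw [← pow_mul, mul_comm, pow_mul]; norm_num
  obtain ⟨n₁, hn₁⟩ : ∃ n₁ : ℕ, ∀ n ≥ n₁, C ≤ 4 * α * 4 ^ n := by
    have : Filter.Tendsto (fun n : ℕ => 4 * α * (4 : ℝ) ^ n) Filter.atTop Filter.atTop :=
      (tendsto_pow_atTop_atTop_of_one_lt (by norm_num)).const_mul_atTop (by positivity)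
    exact Filter.eventually_atTop.mp (this.eventually_ge_atTop C)
  obtain ⟨n₃, hn₃⟩ := Filter.eventually_atTop.mp (zz_sep 0 1)
  have hlog : ∀ n : ℕ, Real.log ((((px (DD n)).num.natAbs ^ 3 : ℕ)) : ℝ) +
      Real.log ((((px (DD n)).den ^ 3 : ℕ)) : ℝ) =
      3 * (Real.log ((px (DD n)).num.natAbs) + Real.log ((px (DD n)).den)) := by
    intro n
    push_cast
    rw [Real.log_pow, Real.log_pow]
    push_cast
    ring
  have hb : ∀ n, (Real.log ((px (DD n)).num.natAbs) + Real.log ((px (DD n)).den)) / 2 ≤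
      h1 (px (DD n) : Qbar) ∧ h1 (px (DD n) : Qbar) ≤
      Real.log ((px (DD n)).num.natAbs) + Real.log ((px (DD n)).den) := fun n =>
    h1_bounds (hnum n) (hden n) (px (DD n)).reduced (abs_rat _)
  set E := 25 * α + C with hE
  have hE0 : 0 < E := by positivity
  refine ⟨min (3 * (α / 4)) c₁, 6 * E + c₂, lt_min (by positivity) hc₁, by positivity,
    max (max n₁ n₂) (max n₃ 1), fun n hn => ?_⟩
  have g1 : n₁ ≤ n := ((le_max_left _ _).trans (le_max_left _ _)).trans hn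
  have g2 : n₂ ≤ n := ((le_max_right _ _).trans (le_max_left _ _)).trans hn
  have g3 : n₃ ≤ n := ((le_max_left _ _).trans (le_max_right _ _)).trans hn
  have g4 : 1 ≤ n := ((le_max_right _ _).trans (le_max_right _ _)).trans hn
  have hn1 : (1 : ℝ) ≤ n := by exact_mod_cast g4
  have hn4 : (1 : ℝ) ≤ (n : ℝ) ^ 4 := one_le_pow₀ hn1
  have hp4 : (1 : ℝ) ≤ 4 ^ n := one_le_pow₀ (by norm_num)
  have hM : 1 ≤ (4 : ℝ) ^ n * (n : ℝ) ^ 4 := one_le_mul_of_one_le_of_one_le hp4 hn4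
  set M := (4 : ℝ) ^ n * (n : ℝ) ^ 4 with hMdef
  have hCM : C ≤ C * M := le_mul_of_one_le_right hC hM
  -- the point `D`
  have bD : |h1 (px (DD n) : Qbar) - α * (4 ^ n * (((n : ℝ) ^ 2 + 3 * n + 4) ^ 2 / 4))| ≤ C := by
    have := hx _ (hD n)
    have e : α * ((DD n : ℤ) : ℝ) ^ 2 = α * (4 ^ n * (((n : ℝ) ^ 2 + 3 * n + 4) ^ 2 / 4)) := by
      rw [DD_real, ← h4]; ring
    rwa [e] at this
  have bA : |h1 (zz 0 n) - α * (4 ^ n * (((n : ℝ) ^ 2 + 3 * n + 6) ^ 2 / 4))| ≤ C := by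
    have := hx _ (tri_ne n).1
    have e : α * (((tri n).1 : ℤ) : ℝ) ^ 2 =
        α * (4 ^ n * (((n : ℝ) ^ 2 + 3 * n + 6) ^ 2 / 4)) := by
      rw [(tri_real n).2.2, ← h4]; ring
    rwa [e] at this
  have q0 : ((n : ℝ) ^ 2 + 3 * n + 6) ^ 2 / 4 ≤ 25 * (n : ℝ) ^ 4 := by
    have : ((n : ℝ) ^ 2 + 3 * n + 6) ≤ 10 * (n : ℝ) ^ 2 := by nlinarith
    have h5 : ((n : ℝ) ^ 2 + 3 * n + 6) ^ 2 ≤ (10 * (n : ℝ) ^ 2) ^ 2 :=
      pow_le_pow_left₀ (by positivity) this 2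
    nlinarith
  have q1 : ((n : ℝ) ^ 2 + 3 * n + 4) ^ 2 / 4 ≤ 25 * (n : ℝ) ^ 4 := by
    have h5 : ((n : ℝ) ^ 2 + 3 * n + 4) ^ 2 ≤ ((n : ℝ) ^ 2 + 3 * n + 6) ^ 2 :=
      pow_le_pow_left₀ (by positivity) (by linarith) 2
    linarith
  have q2 : (n : ℝ) ^ 4 / 4 + 4 ≤ ((n : ℝ) ^ 2 + 3 * n + 4) ^ 2 / 4 := by
    have : ((n : ℝ) ^ 2 + 3 * n + 4) ^ 2 =
      (n : ℝ) ^ 4 + 16 + (6 * (n : ℝ) ^ 3 + 17 * (n : ℝ) ^ 2 + 24 * n) := by ring
    rw [this]
    have : (0 : ℝ) ≤ 6 * (n : ℝ) ^ 3 + 17 * (n : ℝ) ^ 2 + 24 * n := by positivity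
    linarith
  have gen : ∀ (x q : ℝ), x - α * (4 ^ n * q) ≤ C → q ≤ 25 * (n : ℝ) ^ 4 → x ≤ E * M := by
    intro x q h6 h7
    have h8 : α * (4 ^ n * q) ≤ α * (4 ^ n * (25 * (n : ℝ) ^ 4)) :=
      mul_le_mul_of_nonneg_left (mul_le_mul_of_nonneg_left h7 (by positivity)) hα.le
    have h9 : α * (4 ^ n * (25 * (n : ℝ) ^ 4)) = 25 * α * M := by rw [hMdef]; ring
    have h10 : E * M = 25 * α * M + C * M := by rw [hE]; ring
    linarith
  have uD : h1 (px (DD n) : Qbar) ≤ E * M := gen _ _ (abs_le.mp bD).2 q1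
  have uA : h1 (zz 0 n) ≤ E * M := gen _ _ (abs_le.mp bA).2 q0
  have lD : α / 4 * M ≤ h1 (px (DD n) : Qbar) := by
    have l1 := (abs_le.mp bD).1
    have l2 : α * (4 ^ n * ((n : ℝ) ^ 4 / 4 + 4)) ≤
        α * (4 ^ n * (((n : ℝ) ^ 2 + 3 * n + 4) ^ 2 / 4)) :=
      mul_le_mul_of_nonneg_left (mul_le_mul_of_nonneg_left q2 (by positivity)) hα.le
    have l3 : α * (4 ^ n * ((n : ℝ) ^ 4 / 4 + 4)) = α / 4 * M + 4 * α * 4 ^ n := by
      rw [hMdef]; ring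
    have l4 := hn₁ n g1
    linarith
  have hEM : 0 ≤ E * M := by positivity
  have hcM : 0 ≤ c₂ * M := by positivity
  have e0 : (6 * E + c₂) * M = 6 * (E * M) + c₂ * M := by ring
  obtain ⟨b1, b2⟩ := hb n
  obtain ⟨a1, a2⟩ := has n g2
  refine ⟨?_, ?_, ?_, ?_, ?_⟩
  · rw [hlog]
    have : min (3 * (α / 4)) c₁ * M ≤ 3 * (α / 4) * M :=
      mul_le_mul_of_nonneg_right (min_le_left _ _) (by linarith)
    linarith
  · rw [hlog, e0]; linarith
  · have : min (3 * (α / 4)) c₁ * M ≤ c₁ * M :=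
      mul_le_mul_of_nonneg_right (min_le_right _ _) (by linarith)
    linarith
  · rw [e0]; linarith
  · have h3 := hn₃ n g3
    rw [Fin.sum_univ_three] at h3
    simp only [lt_self_iff_false, if_false, zero_add, one_mul, Fin.isValue, zero_lt_one, if_true]
      at h3
    have h02 : (0 : Fin 3) < 2 := by decide
    rw [if_pos h02] at h3
    have p1 := h1_nonneg (zz 1 n)
    have p2 := h1_nonneg (zz 2 n)
    intro i
    rw [e0]
    fin_cases i
    · show h1 (zz 0 n) ≤ _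
      linarith
    · show h1 (zz 1 n) ≤ _
      linarith
    · show h1 (zz 2 n) ≤ _
      linarith

end Pool.Agent.Y209.HT
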