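import Mathlib
import Pool.Agent.Y209.HT.Base

set_option autoImplicit false

/-! # Height growth `4 ^ n * n ^ (N + 1)` in every dimension `N ≥ 3` -/

namespace Pool.Agent.Y209.HT

open Pool.Agent.Helper259.AbsHt Pool.Agent.Helper259.RatDef Pool.Agent.Helper259.RatMaps
  Pool.Agent.Helper259.Uniform Pool.Agent.Helper259.Orbit3Ht Pool.Agent.Helper259.Orbit3
  Pool.Agent.Helper259.Pts Pool.Agent.Helper259 Height

/-- `F` and `G` have the same order of growth. -/
def SameGrowth (F G : ℕ → ℝ) : Prop :=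
  ∃ c₁ c₂ : ℝ, 0 < c₁ ∧ 0 < c₂ ∧ ∃ c₃ : ℕ, ∀ n ≥ c₃, c₁ * F n ≤ G n ∧ G n ≤ c₂ * F n

theorem packs (hCOP : COP) (hGRO : GRO) (N : ℕ) (hN : 3 ≤ N) :
    ∃ (r : Fin N → FF N) (G : FF N) (u z : Fin N → ℕ → Qbar) (a b : ℕ → ℕ) (g : ℕ → ℚ),
      IsPack N (N + 1) r G u z a b g := by
  induction N, hN using Nat.le_induction with
  | base => exact ⟨_, _, _, _, _, _, _, base_pack hCOP⟩
  | succ N _ ih =>
    obtain ⟨r, G, u, z, a, b, g, h⟩ := ih
    exact ⟨_, _, _, _, _, _, _, step_pack hGRO h⟩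

section Density

variable {m e : ℕ} {r : Fin m → FF m} {G : FF m} {u z : Fin m → ℕ → Qbar} {a b : ℕ → ℕ}
  {g : ℕ → ℚ}

/-- the orbit is Zariski dense -/
theorem IsPack.dense (P : IsPack m e r G u z a b g) (p : MvPolynomial (Fin m) Qbar) (hp : p ≠ 0)
    (N : ℕ) : ∃ n ≥ N, MvPolynomial.eval (fun i => u i n) p ≠ 0 := by
  by_contra hcon
  push Not at hcon
  let U : Ultrafilter ℕ := Filter.hyperfilter ℕ
  have hUle : (U : Filter ℕ) ≤ Filter.atTop := by
    rw [← Nat.cofinite_eq_atTop]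
    exact Filter.hyperfilter_le_cofinite
  have hz : AlgebraicIndependent Qbar (fun i => toK U (z i)) := by
    rw [algebraicIndependent_iff]
    intro q hq
    by_contra hq0
    rw [toK_aeval, toK_eq_zero_iff] at hq
    have h1 := Dens.sep m z P.sep q hq0
    have h2 : ∀ᶠ n in (U : Filter ℕ), MvPolynomial.eval (fun i => z i n) q ≠ 0 := hUle h1
    obtain ⟨n, h3, h4⟩ := (hq.and h2).exists
    exact h4 h3
  have hu := Dens.algInd _ _ hz (P.alg U)
  apply hp
  rw [algebraicIndependent_iff] at hu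
  apply hu
  rw [toK_aeval, toK_eq_zero_iff]
  exact hUle (Filter.eventually_atTop.mpr ⟨N, hcon⟩)

end Density

/-- the points of the orbit -/
noncomputable def pts {m : ℕ} (u : Fin m → ℕ → Qbar) (n : ℕ) : PSpace m :=
  Projectivization.mk Qbar (aff fun i => u i n) (aff_ne _)

lemma dense_pts {m : ℕ} (u : Fin m → ℕ → Qbar) (S : Set ℕ)
    (hS : ∀ p : MvPolynomial (Fin m) Qbar, p ≠ 0 →
      ∃ n ∈ S, MvPolynomial.eval (fun i => u i n) p ≠ 0) :
    IsZariskiDense {Q : PSpace m | ∃ n ∈ S, pts u n = Q} := by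
  rintro U ⟨T, hT, rfl⟩ ⟨P0, F, hF, hPF⟩
  obtain ⟨e, he⟩ := hT F hF
  have hF0 : F ≠ 0 := by rintro rfl; exact hPF (map_zero _)
  obtain ⟨a, ha⟩ := exists_aff he hF0
  let p : MvPolynomial (Fin m) Qbar :=
    MvPolynomial.aeval (Fin.cons 1 MvPolynomial.X : Fin (m + 1) → MvPolynomial (Fin m) Qbar) F
  have hp : ∀ v : Fin m → Qbar, MvPolynomial.eval v p = MvPolynomial.eval (aff v) F := by
    intro v
    have h1 : MvPolynomial.eval v p = MvPolynomial.aeval v p := rfl
    rw [h1, MvPolynomial.comp_aeval_apply]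
    have h2 : (fun i => MvPolynomial.aeval v
        ((Fin.cons 1 MvPolynomial.X : Fin (m + 1) → MvPolynomial (Fin m) Qbar) i)) = aff v := by
      funext i
      refine Fin.cases ?_ (fun j => ?_) i <;> simp [aff]
    rw [h2]
    rfl
  have hp0 : p ≠ 0 := by
    intro h
    apply ha
    rw [← hp, h, map_zero]
  obtain ⟨n, hnS, hn⟩ := hS p hp0
  refine ⟨pts u n, ⟨n, hnS, rfl⟩, F, hF, ?_⟩
  rw [pts, eval_mk he, ← hp]
  exact hn

/-- the order of growth `4 ^ n * n ^ e` determines its parameters -/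
lemma same_iff (e : ℕ) {g : ℕ → ℝ} (hg : SameGrowth (fun n => (4 : ℝ) ^ n * (n : ℝ) ^ e) g)
    (δ l k : ℝ) :
    SameGrowth (fun n => δ ^ n * (n : ℝ) ^ l * Real.log n ^ k) g ↔ δ = 4 ∧ l = e ∧ k = 0 := by
  constructor
  swap
  · rintro ⟨rfl, rfl, rfl⟩
    simpa using hg
  rintro ⟨b1, b2, hb1, hb2, N2, hb⟩
  obtain ⟨a1, a2, ha1, ha2, N1, ha⟩ := hg
  set N := max (max N1 N2) 3 with hN
  have hNN : ∀ n ≥ N, N1 ≤ n ∧ N2 ≤ n ∧ 3 ≤ n := fun n hn =>
    ⟨((le_max_left _ _).trans (le_max_left _ _)).trans hn,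
      ((le_max_right _ _).trans (le_max_left _ _)).trans hn, (le_max_right _ _).trans hn⟩
  have hnpos : ∀ n ≥ N, (0 : ℝ) < n := by
    intro n hn
    exact_mod_cast (by have := (hNN n hn).2.2; omega : 0 < n)
  have hMpos : ∀ n ≥ N, 0 < (4 : ℝ) ^ n * (n : ℝ) ^ e := by
    intro n hn
    have := hnpos n hn
    positivity
  have hlogpos : ∀ n ≥ N, 0 < Real.log (n : ℝ) := by
    intro n hn
    apply Real.log_pos
    exact_mod_cast (by have := (hNN n hn).2.2; omega : 1 < n)
  have hFpos : ∀ n ≥ N, 0 < δ ^ n * (n : ℝ) ^ l * Real.log n ^ k := by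
    intro n hn
    have h1 := (ha n (hNN n hn).1).1
    have h2 := (hb n (hNN n hn).2.1).2
    have h3 := hMpos n hn
    have h4 : 0 < b2 * (δ ^ n * (n : ℝ) ^ l * Real.log n ^ k) :=
      (mul_pos ha1 h3).trans_le (h1.trans h2)
    exact (mul_pos_iff_of_pos_left hb2).mp h4
  have hδn : ∀ n ≥ N, 0 < δ ^ n := by
    intro n hn
    have h1 := hFpos n hn
    have h2 : (0 : ℝ) < (n : ℝ) ^ l := Real.rpow_pos_of_pos (hnpos n hn) l
    have h3 : 0 < Real.log (n : ℝ) ^ k := Real.rpow_pos_of_pos (hlogpos n hn) k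
    rw [mul_assoc] at h1
    exact (mul_pos_iff_of_pos_right (mul_pos h2 h3)).mp h1
  have hδ : 0 < δ := by
    by_contra hneg
    push Not at hneg
    have h1 := hδn (2 * N + 1) (by omega)
    have h2 : δ ^ (2 * N + 1) ≤ 0 := by
      rw [pow_succ, pow_mul]
      exact mul_nonpos_of_nonneg_of_nonpos (by positivity) hneg
    linarith
  -- the logarithm of the quotient is bounded
  let D : ℕ → ℝ := fun n => n * (Real.log 4 - Real.log δ) + ((e : ℝ) - l) * Real.log n -
    k * Real.log (Real.log n)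
  have hD : ∀ n ≥ N, |D n| ≤ |Real.log b1| + |Real.log a2| + |Real.log b2| + |Real.log a1| := by
    intro n hn
    have hn0 : (0 : ℝ) < n := hnpos n hn
    have e1 : Real.log ((4 : ℝ) ^ n * (n : ℝ) ^ e) = n * Real.log 4 + e * Real.log n := by
      rw [Real.log_mul (by positivity) (by positivity), Real.log_pow, Real.log_pow]
    have e2 : Real.log (δ ^ n * (n : ℝ) ^ l * Real.log n ^ k) =
        n * Real.log δ + l * Real.log n + k * Real.log (Real.log n) := by
      rw [Real.log_mul (mul_pos (hδn n hn) (Real.rpow_pos_of_pos hn0 l)).ne'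
        (Real.rpow_pos_of_pos (hlogpos n hn) k).ne',
        Real.log_mul (hδn n hn).ne' (Real.rpow_pos_of_pos hn0 l).ne', Real.log_pow,
        Real.log_rpow hn0, Real.log_rpow (hlogpos n hn)]
    have h1 := Real.log_le_log (mul_pos ha1 (hMpos n hn))
      ((ha n (hNN n hn).1).1.trans (hb n (hNN n hn).2.1).2)
    have h2 := Real.log_le_log (mul_pos hb1 (hFpos n hn))
      ((hb n (hNN n hn).2.1).1.trans (ha n (hNN n hn).1).2)
    rw [Real.log_mul ha1.ne' (hMpos n hn).ne', Real.log_mul hb2.ne' (hFpos n hn).ne', e1, e2] at h1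
    rw [Real.log_mul ha2.ne' (hMpos n hn).ne', Real.log_mul hb1.ne' (hFpos n hn).ne', e1, e2] at h2
    have p1 := neg_abs_le (Real.log a1)
    have p2 := le_abs_self (Real.log a2)
    have p3 := neg_abs_le (Real.log b1)
    have p4 := le_abs_self (Real.log b2)
    have q1 := abs_nonneg (Real.log a1)
    have q2 := abs_nonneg (Real.log a2)
    have q3 := abs_nonneg (Real.log b1)
    have q4 := abs_nonneg (Real.log b2)
    rw [abs_le]
    constructor <;> simp only [D] <;> linarith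
  set B := |Real.log b1| + |Real.log a2| + |Real.log b2| + |Real.log a1| with hB
  have hnat := tendsto_natCast_atTop_atTop (R := ℝ)
  have hlog : Filter.Tendsto (fun n : ℕ => Real.log (n : ℝ)) Filter.atTop Filter.atTop :=
    Real.tendsto_log_atTop.comp hnat
  have hloglog : Filter.Tendsto (fun n : ℕ => Real.log (Real.log (n : ℝ))) Filter.atTop
      Filter.atTop := Real.tendsto_log_atTop.comp hlog
  have r1 : Filter.Tendsto (fun n : ℕ => Real.log (n : ℝ) / n) Filter.atTop (nhds 0) :=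
    (Real.isLittleO_log_id_atTop.tendsto_div_nhds_zero).comp hnat
  have r2 : Filter.Tendsto (fun n : ℕ => Real.log (Real.log (n : ℝ)) / Real.log n)
      Filter.atTop (nhds 0) :=
    (Real.isLittleO_log_id_atTop.tendsto_div_nhds_zero).comp hlog
  have r3 : Filter.Tendsto (fun n : ℕ => B / (n : ℝ)) Filter.atTop (nhds 0) :=
    tendsto_const_nhds.div_atTop hnat
  have r4 : Filter.Tendsto (fun n : ℕ => B / Real.log (n : ℝ)) Filter.atTop (nhds 0) :=
    tendsto_const_nhds.div_atTop hlog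
  have r5 : Filter.Tendsto (fun n : ℕ => B / Real.log (Real.log (n : ℝ))) Filter.atTop (nhds 0) :=
    tendsto_const_nhds.div_atTop hloglog
  -- first `δ = 4`
  have s1 : Filter.Tendsto (fun n : ℕ => D n / n) Filter.atTop
      (nhds (Real.log 4 - Real.log δ)) := by
    have h1 : Filter.Tendsto (fun n : ℕ => (Real.log 4 - Real.log δ) +
        ((e : ℝ) - l) * (Real.log (n : ℝ) / n) -
        k * (Real.log (Real.log (n : ℝ)) / Real.log n * (Real.log (n : ℝ) / n)))
        Filter.atTop (nhds ((Real.log 4 - Real.log δ) + ((e : ℝ) - l) * 0 - k * (0 * 0))) :=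
      (tendsto_const_nhds.add (r1.const_mul _)).sub ((r2.mul r1).const_mul _)
    simp only [mul_zero, add_zero, sub_zero] at h1
    refine h1.congr' ?_
    filter_upwards [Filter.eventually_ge_atTop N] with n hn
    have hn0 : (n : ℝ) ≠ 0 := (hnpos n hn).ne'
    have hl0 := (hlogpos n hn).ne'
    simp only [D]
    field_simp
  have s2 : Filter.Tendsto (fun n : ℕ => D n / n) Filter.atTop (nhds 0) := by
    refine squeeze_zero_norm' ?_ r3
    filter_upwards [Filter.eventually_ge_atTop N] with n hn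
    have hn0 : (0 : ℝ) < n := hnpos n hn
    rw [Real.norm_eq_abs, abs_div, abs_of_pos hn0]
    exact div_le_div_of_nonneg_right (hD n hn) hn0.le
  have hL : Real.log 4 - Real.log δ = 0 := tendsto_nhds_unique s1 s2
  have s3 : Filter.Tendsto (fun n : ℕ => D n / Real.log n) Filter.atTop
      (nhds ((e : ℝ) - l)) := by
    have h1 : Filter.Tendsto (fun n : ℕ => ((e : ℝ) - l) -
        k * (Real.log (Real.log (n : ℝ)) / Real.log n))
        Filter.atTop (nhds (((e : ℝ) - l) - k * 0)) :=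
      tendsto_const_nhds.sub (r2.const_mul _)
    simp only [mul_zero, sub_zero] at h1
    refine h1.congr' ?_
    filter_upwards [Filter.eventually_ge_atTop N] with n hn
    have hl0 := (hlogpos n hn).ne'
    simp only [D]
    rw [hL]
    field_simp
    ring
  have s4 : Filter.Tendsto (fun n : ℕ => D n / Real.log n) Filter.atTop (nhds 0) := by
    refine squeeze_zero_norm' ?_ r4
    filter_upwards [Filter.eventually_ge_atTop N] with n hn
    rw [Real.norm_eq_abs, abs_div, abs_of_pos (hlogpos n hn)]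
    exact div_le_div_of_nonneg_right (hD n hn) (hlogpos n hn).le
  have hfin : (e : ℝ) - l = 0 := tendsto_nhds_unique s3 s4
  have hllpos : ∀ᶠ n : ℕ in Filter.atTop, 0 < Real.log (Real.log (n : ℝ)) :=
    hloglog.eventually_gt_atTop 0
  have s5 : Filter.Tendsto (fun n : ℕ => D n / Real.log (Real.log n)) Filter.atTop
      (nhds (-k)) := by
    refine tendsto_const_nhds.congr' ?_
    filter_upwards [hllpos] with n hn
    simp only [D]
    rw [hL, hfin]
    have := hn.ne'
    field_simp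
    ring
  have s6 : Filter.Tendsto (fun n : ℕ => D n / Real.log (Real.log n)) Filter.atTop (nhds 0) := by
    refine squeeze_zero_norm' ?_ r5
    filter_upwards [Filter.eventually_ge_atTop N, hllpos] with n hn hn2
    rw [Real.norm_eq_abs, abs_div, abs_of_pos hn2]
    exact div_le_div_of_nonneg_right (hD n hn) hn2.le
  have hk : -k = 0 := tendsto_nhds_unique s5 s6
  refine ⟨?_, by linarith, by linarith⟩
  have : Real.log δ = Real.log 4 := by linarith
  exact Real.log_injOn_pos (Set.mem_Ioi.mpr hδ) (Set.mem_Ioi.mpr (by norm_num)) this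

/-- **Height growth of order `4 ^ n * n ^ (N + 1)` along a Zariski dense orbit in projective
`N`-space, for every `N ≥ 3`.** -/
theorem main (hCOP : COP) (hGRO : GRO) (N : ℕ) (hN : 3 ≤ N) :
    ∃ (d : ℕ) (f : RatMap N d) (P : ℕ → PSpace N),
    f.IsDominant ∧
    (∀ n, ∃ (x : Fin (N + 1) → ℚ) (hx : (fun i => (x i : Qbar)) ≠ 0),
      P n = Projectivization.mk Qbar (fun i => (x i : Qbar)) hx) ∧
    (∀ n, ∃ h : f.DefinedAt (P n), P (n + 1) = f.value (P n) h) ∧
    (∀ m, IsZariskiDense {Q | ∃ n ≥ m, P n = Q}) ∧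
    SameGrowth (fun n => (4 : ℝ) ^ n * (n : ℝ) ^ (N + 1)) (fun n => ht (P n)) ∧
    ∀ δ l k : ℝ, SameGrowth (fun n => δ ^ n * (n : ℝ) ^ l * Real.log n ^ k)
      (fun n => ht (P n)) ↔ δ = 4 ∧ l = N + 1 ∧ k = 0 := by
  obtain ⟨r, G, u, z, a, b, g, hP⟩ := packs hCOP hGRO N hN
  obtain ⟨d, f, hf⟩ := exists_ratMap r
  have hstep : ∀ n, ∃ h : f.DefinedAt (pts u n), f.value (pts u n) h = pts u (n + 1) := fun n =>
    hf (fun i => u i n) (fun i => u i (n + 1)) (fun i => hP.step n i)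
  obtain ⟨c, C, hc, hC, n₀, hgro⟩ := hP.gro
  have hgr : SameGrowth (fun n => (4 : ℝ) ^ n * (n : ℝ) ^ (N + 1)) (fun n => ht (pts u n)) := by
    refine ⟨c, C, hc, hC, n₀, fun n hn => ?_⟩
    have e : ht (pts u n) = absLogHeight (aff fun i => u i n) := ht_mk _ _
    beta_reduce
    rw [e]
    exact ⟨(hgro n hn).2.2.1, (hgro n hn).2.2.2.1⟩
  refine ⟨d, f, pts u, ?_, fun n => ?_, fun n => ?_, fun m => ?_, hgr, fun δ l k => ?_⟩
  · intro U hU hne
    obtain ⟨Q, ⟨n, hn, rfl⟩, hQ⟩ := dense_pts u {n | 1 ≤ n} (fun p hp => by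
      obtain ⟨n, hn, h⟩ := hP.dense p hp 1
      exact ⟨n, hn, h⟩) U hU hne
    obtain ⟨m, rfl⟩ : ∃ m, n = m + 1 := ⟨n - 1, by
      have : 1 ≤ n := hn
      omega⟩
    obtain ⟨h, e⟩ := hstep m
    exact ⟨pts u (m + 1), ⟨pts u m, h, e⟩, hQ⟩
  · choose q hq using hP.rat n
    have e : (aff fun i => u i n) = fun i => (((Fin.cons 1 q : Fin (N + 1) → ℚ) i : ℚ) : Qbar) := by
      funext i
      refine Fin.cases ?_ (fun j => ?_) i
      · simp [aff]
      · simp [aff, hq]
    refine ⟨Fin.cons 1 q, by rw [← e]; exact aff_ne _, ?_⟩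
    rw [pts]
    congr 1
  · obtain ⟨h, e⟩ := hstep n
    exact ⟨h, e.symm⟩
  · exact dense_pts u {n | m ≤ n} (fun p hp => by
      obtain ⟨n, hn, h⟩ := hP.dense p hp m
      exact ⟨n, hn, h⟩)
  · have := same_iff (N + 1) hgr δ l k
    push_cast at this
    exact this

end Pool.Agent.Y209.HT
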